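import Pool.Agent.Helper50.HT.Stmts2
import Pool.Agent.Helper33.HN.TUZ

/-!
# HT, row TLK: lower bound of the kinetic energy
-/

set_option autoImplicit false

namespace Pool.Agent.Helper37.HT

open MeasureTheory Filter Pool.Agent.Helper95 Pool.Agent.Helper95.PW Pool.Agent.Helper95.LN
open Pool.Agent.Helper26.HN Pool.Agent.Helper50.HT

/-- row TLK -/
theorem TLK (h1 : ST_ESB) (h2 : ST_AED) (h3 : ST_NEZ) (h4 : ST_INZ) (h5 : ST_QHM)
    (h6 : ST_INTM) : ST_TLK := by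
  intro c d hc hd
  obtain ⟨C, hC, H⟩ := h3
  obtain ⟨A, hA⟩ : ∃ A : ℝ, A = 32 / c := ⟨_, rfl⟩
  have hA0 : 0 < A := by rw [hA]; positivity
  obtain ⟨B, hB⟩ : ∃ B : ℝ, B = (2 * A) ^ (1 / 2 : ℝ) := ⟨_, rfl⟩
  have hB0 : 0 < B := by rw [hB]; positivity
  obtain ⟨D, hD⟩ : ∃ D : ℝ, D = 16 * C * B / c := ⟨_, rfl⟩
  have hD0 : 0 < D := by rw [hD]; positivity
  obtain ⟨K, hK⟩ : ∃ K : ℝ, K = D ^ (2 / 3 : ℝ) := ⟨_, rfl⟩
  have hK0 : 0 < K := by rw [hK]; positivity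
  have hKD : C * K ^ (-(3 / 2) : ℝ) * B = c / 16 := by
    have e1 : K ^ (-(3 / 2) : ℝ) = D⁻¹ := by
      rw [hK, ← Real.rpow_mul hD0.le, ← Real.rpow_neg_one]
      norm_num
    rw [e1, hD]
    field_simp
  obtain ⟨C', hC', H'⟩ := H d K hd hK0
  obtain ⟨L, hL⟩ : ∃ L : ℝ, L = 1 + 2 * A / d + 16 * C' / c + 24 / c := ⟨_, rfl⟩
  have p1 : 0 < 2 * A / d := by positivity
  have p2 : 0 < 16 * C' / c := by positivity
  have p3 : 0 < 24 / c := by positivity
  have hL1 : 1 ≤ L := by linarith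
  refine ⟨3 * c / (16 * K), L ^ 3, by positivity, one_le_pow₀ hL1, ?_⟩
  intro n M X Z z E u hzL hM hN hZ hS hE hu hua hsq1 hsq hres
  have hz : 1 ≤ z := le_trans (one_le_pow₀ hL1) hzL
  have hz0 : 0 < z := by linarith
  have hM1 : (1 : ℝ) ≤ M := by exact_mod_cast hM
  have hM0 : (0 : ℝ) ≤ M := by linarith
  have hnz : (n : ℝ) ≤ z * M := by
    rw [← hN.2]
    calc ∑ j, Z j ≤ ∑ _j : Fin M, z := Finset.sum_le_sum fun j _ => hZ j
      _ = z * M := by
        rw [Finset.sum_const, Finset.card_univ, Fintype.card_fin, nsmul_eq_mul, mul_comm]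
  -- `y = z ^ (1/3)`
  obtain ⟨y, hy⟩ : ∃ y : ℝ, y = z ^ (1 / 3 : ℝ) := ⟨_, rfl⟩
  have hyL : L ≤ y := by
    rw [hy]
    calc L = (L ^ 3) ^ (1 / 3 : ℝ) := by
          rw [← Real.rpow_natCast L 3, ← Real.rpow_mul (by linarith)]
          norm_num
      _ ≤ z ^ (1 / 3 : ℝ) := Real.rpow_le_rpow (by positivity) hzL (by norm_num)
  have hy0 : 0 < y := by linarith
  have q1 : 2 * A / d ≤ y := by linarith
  have q2 : 16 * C' / c ≤ y := by linarith
  have q3 : 24 / c ≤ y := by linarith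
  obtain ⟨b, hb⟩ : ∃ b : ℝ, b = A / y := ⟨_, rfl⟩
  have hbp : 0 < b := by rw [hb]; positivity
  have hbd : 2 * b ≤ d := by
    rw [hb]
    rw [div_le_iff₀ hd] at q1
    have : 2 * (A / y) = 2 * A / y := by ring
    rw [this, div_le_iff₀ hy0]
    linarith
  have a1 := Pool.Agent.Helper33.HN.tuz_int h1 h2 h4 h6 z b d hz0.le hbp (by linarith) n M X Z u
    hS hN hZ hu
  have a2 := Pool.Agent.Helper33.HN.tuz_Q h5 h6 X Z E (1 / 2) (by norm_num) u hu
  have a3 := H' n M X z (2 * b) u hz hnz hS (by positivity) hbd hu hua hsq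
  have s0 : 0 ≤ Helper95.PW.sq u := by linarith
  have hkin : 0 ≤ kin u := Finset.sum_nonneg fun k _ => Finset.sum_nonneg fun i _ =>
    com_sq_nonneg _
  obtain ⟨W, hW⟩ : ∃ W : ℝ, W = z ^ (7 / 3 : ℝ) := ⟨_, rfl⟩
  have hW0 : 0 < W := by rw [hW]; positivity
  have eW : W = z ^ 2 * y := by
    rw [hW, hy, ← Real.rpow_natCast z 2, ← Real.rpow_add hz0]
    norm_num
  have hWy : y ≤ W := by
    rw [eW]
    exact le_mul_of_one_le_left hy0.le (one_le_pow₀ hz)
  rw [← hW] at hE ⊢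
  -- the energy
  have b1 : (E + nucR X Z) * Helper95.PW.sq u ≤ -(c / 2 * (M * W)) := by
    have g1 : (E + nucR X Z) * Helper95.PW.sq u ≤ -(c * (M * W)) * Helper95.PW.sq u :=
      mul_le_mul_of_nonneg_right hE s0
    have g2 : 0 ≤ c * (M * W) := by positivity
    have g3 : c * (M * W) * (1 / 2) ≤ c * (M * W) * Helper95.PW.sq u :=
      mul_le_mul_of_nonneg_left hsq1 g2
    linarith
  -- the term of the smearing
  have c1 : (1 + z) / b * n * Helper95.PW.sq u ≤ c / 8 * (M * W) := by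
    have g1 : (1 + z) / b ≤ (2 * z) / b := by gcongr; linarith
    calc (1 + z) / b * n * Helper95.PW.sq u ≤ (2 * z) / b * (z * M) * 2 := by gcongr
      _ = c / 8 * (M * W) := by
        rw [hb, eW, hA]
        field_simp
        ring
  -- the near term
  have c2 : C * K ^ (-(3 / 2) : ℝ) * z ^ (5 / 2 : ℝ) * (2 * b) ^ (1 / 2 : ℝ) = c / 16 * W := by
    have e0 : 2 * b = 2 * A * z ^ (-(1 / 3) : ℝ) := by
      rw [hb, hy, Real.rpow_neg hz0.le]
      ring
    have e1 : (2 * b) ^ (1 / 2 : ℝ) = B * z ^ (-(1 / 6) : ℝ) := by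
      rw [e0, hB, Real.mul_rpow (by positivity) (by positivity), ← Real.rpow_mul hz0.le]
      norm_num
    have e2 : z ^ (5 / 2 : ℝ) * z ^ (-(1 / 6) : ℝ) = W := by
      rw [hW, ← Real.rpow_add hz0]
      norm_num
    rw [e1, ← hKD, ← e2]
    ring
  rw [c2] at a3
  have c3 : C' * z ^ 2 ≤ c / 16 * W := by
    rw [eW]
    rw [div_le_iff₀ hc] at q2
    have g1 : 16 * C' * z ^ 2 ≤ y * c * z ^ 2 := mul_le_mul_of_nonneg_right q2 (by positivity)
    linarith
  have c4 : (c / 16 * W + C' * z ^ 2) * M ≤ c / 8 * (M * W) := by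
    calc (c / 16 * W + C' * z ^ 2) * M ≤ (c / 16 * W + c / 16 * W) * M := by gcongr
      _ = c / 8 * (M * W) := by ring
  have c5 : 3 / 2 ≤ c / 16 * (M * W) := by
    rw [div_le_iff₀ hc] at q3
    have g1 : c * y ≤ c * W := mul_le_mul_of_nonneg_left hWy hc.le
    have g2 : c * W ≤ c * (M * W) :=
      mul_le_mul_of_nonneg_left (le_mul_of_one_le_left hW0.le hM1) hc.le
    linarith
  have c6 : 1 / (4 * (1 / 2)) * resM X Z E u ≤ 1 / 2 := by
    have : (1 : ℝ) / (4 * (1 / 2)) = 1 / 2 := by norm_num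
    rw [this]
    linarith
  have c7 : 3 / 16 * (c * (M * W)) ≤ K * kin u := by linarith
  have c8 : 3 * c / (16 * K) * (M * W) = 3 / 16 * (c * (M * W)) / K := by
    field_simp
  rw [c8, div_le_iff₀ hK0]
  linarith

end Pool.Agent.Helper37.HT
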